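import Pool.Agent.Lib.KN55.All

set_option autoImplicit false

open N62a1eb23 Pool.Agent.Lib.MP_c35c17_an Filter Topology

namespace Pool.Agent.Results.MP_c35c17_an.KneadingYoccoz

/-- Yoccoz inequality in kneading form: if the kneading sequence of an angle of the critical value
repeats with period `k` for exactly `L` steps, `L` polynomially large in `k`, then there is a
repelling point of period `k` whose multiplier is bounded above by `k ^ 2 / L` on the logarithmic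
scale and below by a power of the distance of the parameter from the hyperbolic parameters. -/
theorem result (n : ℕ) (hn : 2 ≤ n) : ∃ C : ℝ, 0 < C ∧ ∀ c ∈ multibrotSet n,
    Function.Injective (fun j : ℕ ↦ (fun w ↦ w ^ n + c)^[j] 0) → ∀ Φ : ℂ → ℂ,
    DifferentiableOn ℂ Φ {w | 1 < ‖w‖} → (∀ w, 1 < ‖w‖ → Φ (w ^ n) = Φ w ^ n + c) →
    Tendsto (fun w ↦ Φ w / w) (Bornology.cobounded ℂ) (𝓝 1) →
    c ∈ closure (Φ '' {w | 1 < ‖w‖}) →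
    ∃ θ : ℝ, MapClusterPt c (𝓝[{w | 1 < ‖w‖}] Complex.exp (2 * Real.pi * Complex.I * θ)) Φ ∧
      ∀ k L : ℕ, 0 < k → (∀ i ≤ L + k, ∀ m : ℤ, ((n : ℝ) ^ (i + 1) - 1) * θ ≠ m) →
      (∀ i < L, ⌊((n : ℝ) ^ (i + k + 1) - 1) * θ⌋ ≡ ⌊((n : ℝ) ^ (i + 1) - 1) * θ⌋ [ZMOD n]) →
      ¬ ⌊((n : ℝ) ^ (L + k + 1) - 1) * θ⌋ ≡ ⌊((n : ℝ) ^ (L + 1) - 1) * θ⌋ [ZMOD n] →
      C * (k : ℝ) ^ 6 ≤ L →
      ∃ z : ℂ, (fun w ↦ w ^ n + c)^[k] z = z ∧ 1 < ‖deriv (fun w ↦ w ^ n + c)^[k] z‖ ∧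
        min (Metric.infDist c {c | ∃ m z, IsAttractingCycle (fun w ↦ w ^ n + c) m z})
            (1 / k) ^ 48 ≤
          C * (k : ℝ) ^ 408 * Real.log ‖deriv (fun w ↦ w ^ n + c)^[k] z‖ ∧
        L * Real.log ‖deriv (fun w ↦ w ^ n + c)^[k] z‖ ≤ C * (k : ℝ) ^ 2 := by
  obtain ⟨h1, h2, h3, h4⟩ := KN.all hn
  obtain ⟨C, hC, h⟩ := KN.main hn h1 h2 h3 h4
  refine ⟨C, hC, fun c hc hi Φ a1 a2 a3 a4 => ?_⟩
  obtain ⟨θ, b1, b2⟩ := h c hc hi Φ ⟨a1, a2, a3⟩ a4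
  refine ⟨θ, b1, fun k L d1 d2 d3 d4 d5 => ?_⟩
  obtain ⟨z, e1, e2⟩ := b2 k L d1 d2 d3 d4 d5
  refine ⟨z, e1, ?_⟩
  rw [(hasDerivAt_iter n c k z).deriv]
  exact e2

end Pool.Agent.Results.MP_c35c17_an.KneadingYoccoz
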