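import Pool.Agent.Lib.MP_c35c17_an.R_MAIN
import Pool.Agent.Lib.MP_c35c17_an.R_MOD
import Pool.Agent.Lib.MP_c35c17_an.R_SM
import Pool.Agent.Lib.MP_c35c17_an.R_FP
import Pool.Agent.Lib.MP_c35c17_an.R_NR
import Pool.Agent.Lib.MP_c35c17_an.R_DYN
import Pool.Agent.Lib.MP_c35c17_an.R_PBACT
import Pool.Agent.Lib.MP_c35c17_an.R_POLY
import Pool.Agent.Lib.MP_c35c17_an.R_G1
import Pool.Agent.Lib.MP_c35c17_an.R_G2
import Pool.Agent.Lib.MP_c35c17_an.R_AN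
import Pool.Agent.Lib.MP_c35c17_an.R_LOC
import Pool.Agent.Lib.MP_c35c17_an.R_MEAN
import Pool.Agent.Lib.MP_c35c17_an.R_G5
import Pool.Agent.Lib.MP_c35c17_an.R_GON
import Pool.Agent.Lib.MP_c35c17_an.R_L1
import Pool.Agent.Lib.MP_c35c17_an.R_LK
import Pool.Agent.Lib.MP_c35c17_an.R_CORE
import Pool.Agent.Lib.MP_c35c17_an.R_F1
import Pool.Agent.Lib.MP_c35c17_an.R_F3
import Pool.Agent.Lib.MP_c35c17_an.LA1
import Pool.Agent.Lib.MP_c35c17_an.LA2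
import Pool.Agent.Lib.MP_c35c17_an.LA3B3
import Pool.Agent.Lib.MP_c35c17_an.LB1
import Pool.Agent.Lib.MP_c35c17_an.LB2
import Pool.Agent.Lib.MP_c35c17_an.LUI
import Pool.Agent.Lib.MP_c35c17_an.LD
import Pool.Agent.Lib.MP_c35c17_an.LC1
import Pool.Agent.Lib.MP_c35c17_an.LC2a
import Pool.Agent.Lib.MP_c35c17_an.LC2b
import Pool.Agent.Lib.MP_c35c17_an.LE1
import Pool.Agent.Lib.MP_c35c17_an.LE2
import Pool.Agent.Lib.MP_c35c17_an.LF2G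
import Pool.Agent.Lib.MP_c35c17_an.LF3a
import Pool.Agent.Lib.MP_c35c17_an.LH

set_option autoImplicit false

open N62a1eb23 Pool.Agent.Lib.MP_c35c17_an Filter Topology

namespace Pool.Agent.Results.MP_c35c17_an.PolynomialLimbs

/-- If `q` periodic external rays land at a repelling point of period `k`, with `q` polynomially
large in `k` and any rotation number, then the parameter has a small closed connected neighbourhood in the Multibrot set that is cut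
off by finitely many parabolic parameters and meets the closure of the hyperbolic parameters. -/
theorem result (n : ℕ) (hn : 2 ≤ n) : ∃ C : ℝ, 0 < C ∧ ∀ c ∈ multibrotSet n, ∀ Φ : ℂ → ℂ,
    DifferentiableOn ℂ Φ {w | 1 < ‖w‖} → (∀ w, 1 < ‖w‖ → Φ (w ^ n) = Φ w ^ n + c) →
    Tendsto (fun w ↦ Φ w / w) (Bornology.cobounded ℂ) (𝓝 1) →
    ∀ (k : ℕ) (z : ℂ), 0 < k → (fun w ↦ w ^ n + c)^[k] z = z →
      1 < ‖deriv (fun w ↦ w ^ n + c)^[k] z‖ → ∀ T : Finset ℂ,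
      (∀ ζ ∈ T, ‖ζ‖ = 1 ∧ (∃ p, 0 < p ∧ ζ ^ n ^ p = ζ) ∧
        Tendsto (fun r : ℝ ↦ Φ (r * ζ)) (𝓝[>] 1) (𝓝 z)) →
      C * (k : ℝ) ^ 457 ≤ T.card →
      ∃ N ⊆ multibrotSet n, IsClosed N ∧ IsConnected N ∧ N ∈ 𝓝[multibrotSet n] c ∧
        (N ∩ closure (multibrotSet n \ N)).Finite ∧
        (∀ u ∈ N ∩ closure (multibrotSet n \ N), ∃ Φ' : ℂ → ℂ,
          DifferentiableOn ℂ Φ' {w | 1 < ‖w‖} ∧ (∀ w, 1 < ‖w‖ → Φ' (w ^ n) = Φ' w ^ n + u) ∧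
          Tendsto (fun w ↦ Φ' w / w) (Bornology.cobounded ℂ) (𝓝 1) ∧
          ∃ ζ ∈ T, ∃ (m : ℕ) (y : ℂ), 0 < m ∧ (fun w ↦ w ^ n + u)^[m] y = y ∧
            deriv (fun w ↦ w ^ n + u)^[m] y = 1 ∧
            Tendsto (fun r : ℝ ↦ Φ' (r * ζ)) (𝓝[>] 1) (𝓝 y)) ∧
        (N ∩ closure {c | ∃ m z, IsAttractingCycle (fun w ↦ w ^ n + c) m z}).Nonempty ∧
        ∀ c' ∈ N, T.card * ‖c' - c‖ ^ 48 ≤ C * (k : ℝ) ^ 409 := by
  obtain ⟨C, hC, h⟩ := L.main3 hn (L.a3 hn (L.a1 hn) L.a2) (L.uu hn)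
    (L.b3 hn (L.b1 hn) (L.uu hn) (L.b2 hn)) (L.ii hn) (L.dd hn) (L.c1 hn)
    (L.c2b hn (L.c1 hn) L.c2a) (L.e2 hn (L.c1 hn) (L.e1 hn))
    (R.st_F3 hn (R.st_F1 hn (R.st_CORE (R.st_MOD hn) R.st_SM (R.st_DYN R.st_FP R.st_NR) R.st_PB
      R.st_ACT R.st_POLY (R.st_GON R.st_PB (R.st_AN R.st_G1 R.st_G2) R.st_LOC R.st_MEAN R.st_G5)
      (R.st_L1 hn) R.st_LK)) (L.f2 hn) L.f3a) (L.gg hn) L.hh
  refine ⟨C, hC, fun c hc Φ h1 h2 h3 k z hk hz h4 T hT h5 => ?_⟩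
  rw [(hasDerivAt_iter n c k z).deriv] at h4
  obtain ⟨N, e1, e0, e2, e3, e4, e5, e6, e7⟩ := h c hc Φ ⟨h1, h2, h3⟩ k z T hk hz h4 hT h5
  refine ⟨N, e1, e0, ⟨e6.left, e2⟩, e3, e4, fun u hu => ?_, e6, e7⟩
  obtain ⟨Φ', a1, ζ, a2, m, y, a3, a4, a5, a6⟩ := e5 u hu
  exact ⟨Φ', a1.diff, a1.conj, a1.norm, ζ, a2, m, y, a3, a4,
    (hasDerivAt_iter n u m y).deriv.trans a5, a6⟩

end Pool.Agent.Results.MP_c35c17_an.PolynomialLimbs
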