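import Pool.Agent.Lib.MP_c35c17_an.QMain

set_option autoImplicit false

open N62a1eb23 Pool.Agent.Lib.MP_c35c17_an

namespace Pool.Agent.Results.MP_c35c17_an.PolynomialMultiplierBound

/-- The distance of a parameter to the hyperbolic parameters is bounded by a power of the
distance of the multiplier of any non-attracting cycle to the unit circle, with a constant that is
polynomial in the period. -/
theorem result (n : ℕ) (hn : 2 ≤ n) : ∃ C : ℝ, ∀ c : ℂ, ‖c‖ ≤ 2 → ∀ (k : ℕ) (z : ℂ), 0 < k →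
    (fun w ↦ w ^ n + c)^[k] z = z → 1 ≤ ‖deriv (fun w ↦ w ^ n + c)^[k] z‖ →
      Metric.infDist c {c | ∃ m z, IsAttractingCycle (fun w ↦ w ^ n + c) m z} ^ 576 ≤
        C * (k : ℝ) ^ 1872 * (‖deriv (fun w ↦ w ^ n + c)^[k] z‖ - 1) := by
  obtain ⟨C, hC⟩ := Q.main_bound hn
  refine ⟨C, fun c hc k z hk hz h1 => ?_⟩
  rw [(hasDerivAt_iter n c k z).deriv] at h1 ⊢
  exact hC c hc k z hk hz h1

end Pool.Agent.Results.MP_c35c17_an.PolynomialMultiplierBound
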