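import Pool.Agent.Lib.RT95.All

set_option autoImplicit false

open N62a1eb23 Filter Topology

namespace Pool.Agent.Results.MP_c35c17_an.RenormalizationTowers

/-- Along a chain of renormalization periods `p i` of the kneading sequence `ν` whose relative
periods `q i` are polynomially large compared with a prefix of the relative kneading sequence that
does not recur, the distance to the hyperbolic parameters is at most `C * exp (-∑ √(q i))`. -/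
theorem result (n : ℕ) (hn : 2 ≤ n) : ∃ C : ℝ, 0 < C ∧ ∀ c ∈ multibrotSet n, ∀ Φ : ℂ → ℂ,
    DifferentiableOn ℂ Φ {w | 1 < ‖w‖} → (∀ w, 1 < ‖w‖ → Φ (w ^ n) = Φ w ^ n + c) →
    Tendsto (fun w ↦ Φ w / w) (Bornology.cobounded ℂ) (𝓝 1) → c ∈ closure (Φ '' {w | 1 < ‖w‖}) →
    ∃ θ : ℝ, MapClusterPt c (𝓝[{w | 1 < ‖w‖}] Complex.exp (2 * Real.pi * Complex.I * θ)) Φ ∧
      ∀ ν : ℕ → ZMod n, (∀ i, ν i = (⌊((n : ℝ) ^ (i + 1) - 1) * θ⌋ : ℤ)) →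
      (∀ k > 0, ∃ x, ν (x + k) ≠ ν x) → ∀ (m : ℕ) (p q e : ℕ → ℕ), p 0 = 1 →
        (∀ i < m, p (i + 1) = p i * q i) → (∀ i ≤ m, ∀ j, ¬ p i ∣ j + 1 → ν (j + p i) = ν j) →
        (∀ i ≤ m, 0 < e i ∧ C * (e i : ℝ) ^ 28 ≤ q i ∧ ∀ k, 1 ≤ k → k < q i → ∃ x < e i,
          ν ((k + x + 1) * p i - 1) ≠ ν ((x + 1) * p i - 1)) →
        Metric.infDist c {c | ∃ m z, IsAttractingCycle (fun w ↦ w ^ n + c) m z} ≤
          C * Real.exp (-∑ i ∈ Finset.range (m + 1), √(q i)) := by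
  obtain ⟨C, hC, h⟩ := RT95.fin hn (RT95.core hn)
  refine ⟨C, hC, fun c hc Φ h1 h2 h3 h4 => ?_⟩
  obtain ⟨θ, h5, h6⟩ := h c hc Φ ⟨h1, h2, h3⟩ h4
  exact ⟨θ, h5, fun ν hν => (h6 ν hν).2⟩

end Pool.Agent.Results.MP_c35c17_an.RenormalizationTowers
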